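import Pool.Agent.H829.MC.Tr

set_option autoImplicit false

/-!
# Reduction of theories with countably many countable models to dense linear orders

The reductions of the library files `TH686/MC/{ExA,ExB,Fin,Fun,Inv}.lean` for the theories with countably many
countable models.
-/

namespace Pool.Agent.H829.MC

open FirstOrder FirstOrder.Language Filter
open Pool.Agent.W889.FO
open Pool.Agent.TH686.FO
open Pool.Agent.TH686.DO (DL1)
open Pool.Agent.TH686.MC (MartinN L1 tq D_tq exists_finL rz_of_fd fd_rz sat_iso rz_sentence)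

variable {L : FirstOrder.Language.{0, 0}}

section A

open Pool.Agent.W889.FO.StA Pool.Agent.TH686.JA

/-- the first reduction -/
theorem reduceA [L.IsRelational] [Countable (Σ n, L.Relations n)] (T : L.Theory)
    (hfew : CM T)
    (hM : ∀ T' : (LA L).Theory, T'.IsComplete → CM T' → MartinN T') :
    MartinN T := by
  have : Countable (Σ n, (LA L).Relations n) := countable_LA
  refine transferJ (tq (itp L)) gnA.sup T hfew (fun M _ => ?_) fun T' h1 h2 _ => hM T' h1 h2
  obtain ⟨S, h1, h2, h3⟩ := exA M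
  refine ⟨S, h1, h2, ?_⟩
  rw [D_tq]
  exact h3

end A

section B

open Pool.Agent.W889.FO.StB Pool.Agent.TH686.JB

/-- the second reduction -/
theorem reduceB {L : FirstOrder.Language.{0, 0}} (B : Bin L) [L.IsRelational] (T : L.Theory)
    (hfew : CM T) (hM : ∀ T' : LB.Theory, T'.IsComplete → CM T' → MartinN T') :
    MartinN T := by
  have : Countable (Σ n, L.Relations n) := B.inj.countable
  have : Countable (Σ n, LB.Relations n) := countable_LB
  refine transferJ (tq (itp B)) (gnB B).sup T hfew (fun M _ => ?_) fun T' h1 h2 _ => hM T' h1 h2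
  obtain ⟨S, h1, h2, h3⟩ := exB B M
  refine ⟨S, h1, h2, ?_⟩
  rw [D_tq]
  exact h3

end B

section fin

open Pool.Agent.W889.VC Pool.Agent.W889.VC.Grid Pool.Agent.TH686.DO Pool.Agent.TH686.MC

/-- finite relational languages -/
theorem martin_fin' {L : FirstOrder.Language.{0, 0}} [L.IsRelational] (A : FinL L)
    (hV : ∀ T : L2.Theory, T.IsComplete → CM T →
      (∀ S : L2.Structure ℕ, @Theory.Model L2 ℕ S T → DL1 (g1 S) ∧ DL1 (g2 S)) → MartinN T)
    (T : L.Theory) (hfew : CM T) : MartinN T := by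
  have hc2 := countable_L2
  have : Countable (Σ n, L.Relations n) := by
    refine Function.Injective.countable (f := A.ix) fun Q Q' h => ?_
    rw [← A.dc_ix Q, ← A.dc_ix Q', h]
  refine Pool.Agent.H829.MC.transfer (itF A) (supG A) T hfew (fun M _ => exF A M)
    fun T' _ hfew' hT' => ?_
  refine Pool.Agent.H829.MC.transfer I1 supB T' hfew' (fun M hM => ?_) fun T'' hc hf hT'' =>
    hV T'' hc hf fun S hS => ⟨(hT'' S hS).dl1, (hT'' S hS).dl2⟩
  obtain ⟨h1, h2⟩ := hT' M hM
  exact ex1 M h1.2.2.2.2.1 h1.2.2.2.2.2 (red_W h1 h2)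

end fin

/-- countable relational languages -/
theorem martin_rel [L.IsRelational] [Countable (Σ n, L.Relations n)]
    (hV : ∀ T : L2.Theory, T.IsComplete → CM T →
      (∀ S : L2.Structure ℕ, @Theory.Model L2 ℕ S T → DL1 (g1 S) ∧ DL1 (g2 S)) → MartinN T)
    (T : L.Theory) (hfew : CM T) : MartinN T := by
  refine reduceA T hfew fun T1 _ h1 => ?_
  have := StA.countable_LA (L := L)
  obtain ⟨p, hp⟩ := Countable.exists_injective_nat (Σ n, (StA.LA L).Relations n)
  refine reduceB (L := StA.LA L) ⟨fun n Q => ?_, p, hp⟩ T1 h1 fun T2 _ h2 => ?_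
  · cases Q with
    | dm => exact Or.inl rfl
    | ur R => exact Or.inl rfl
    | pr R i => exact Or.inr rfl
  · have := Pool.Agent.W889.FO.finite_LB
    have : Nonempty (Σ n, Pool.Agent.W889.FO.StB.LB.Relations n) :=
      ⟨⟨1, Pool.Agent.W889.FO.StB.RB.D⟩⟩
    obtain ⟨A⟩ := exists_finL Pool.Agent.W889.FO.StB.LB
    exact martin_fin' A hV T2 h2

section I

open Pool.Agent.W889.VC Pool.Agent.TH686.DO Pool.Agent.TH686.MC

/-- the reduction to dense linear orders with an involution -/
theorem reduceI (hV : ∀ T : L2.Theory, T.IsComplete → CM T →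
      (∀ S : L2.Structure ℕ, @Theory.Model L2 ℕ S T → IW S) → MartinN T)
    (T : L2.Theory) (hfew : CM T)
    (hT : ∀ S : L2.Structure ℕ, @Theory.Model L2 ℕ S T → DL1 (g1 S) ∧ DL1 (g2 S)) :
    MartinN T := by
  have := countable_L2
  refine Pool.Agent.H829.MC.transferJ (tq I2p) gnI.sup T hfew (fun M hM => ?_)
    fun T' h1 h2 h3 => hV T' h1 h2 h3
  obtain ⟨S, h1, h2⟩ := ex2 M (hT M hM).1 (hT M hM).2
  exact ⟨S, h1, trivial, h2⟩

end I

end Pool.Agent.H829.MC
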